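import Pool.Agent.helper20.SOL.SpecE

set_option autoImplicit false

/-!
# Row sol:CTE: counting identities
-/

namespace Pool.Agent.SOL

open Pool.Agent.helper54.SOG Finset

open scoped BigOperators

theorem CTE_cN (N : ℕ) (x : Vec 8) (v : ℕ) :
    cN N x (v : ℤ) = ((univ.filter (fun i : Fin 8 => i.val < N)).filter
      (fun i => (x i).natAbs = v)).card := by
  unfold cN
  rw [Finset.filter_filter]
  congr 1
  apply Finset.filter_congr
  intro i _
  rw [Int.abs_eq_natAbs]
  constructor
  · rintro ⟨h1, h2⟩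
    exact ⟨h1, by exact_mod_cast h2⟩
  · rintro ⟨h1, h2⟩
    exact ⟨h1, by exact_mod_cast h2⟩

/-- CTE. -/
theorem CTE : CTE_stmt := by
  intro N x hN hx
  have hm : ∀ i ∈ univ.filter (fun i : Fin 8 => i.val < N), (x i).natAbs ∈ range 9 := by
    intro i _
    rw [mem_range]
    have := hx i
    rw [Int.abs_eq_natAbs] at this
    omega
  refine ⟨?_, ?_, ?_, ?_⟩
  · simp only [CTE_cN]
    rw [← Finset.card_eq_sum_card_fiberwise hm]
    interval_cases N <;> rfl
  · rw [← Finset.sum_fiberwise_of_maps_to hm]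
    refine Finset.sum_congr rfl fun v _ => ?_
    rw [CTE_cN, mul_comm, ← nsmul_eq_mul, ← Finset.sum_const]
    refine Finset.sum_congr rfl fun i hi => ?_
    rw [Finset.mem_filter] at hi
    rw [← hi.2, ← Int.abs_eq_natAbs, abs_mul_abs_self]
  · intro v hv
    unfold cN
    rw [Finset.card_eq_zero, Finset.filter_eq_empty_iff]
    rintro i _ ⟨_, h⟩
    have h1 := hx i
    have h2 := abs_nonneg (x i)
    rcases hv with hv | hv <;> omega
  · unfold dp
    exact (Finset.sum_filter_add_sum_filter_not _ _ _).symm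

end Pool.Agent.SOL
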