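import Pool.Agent.helper20.SOL.SpecE

set_option autoImplicit false

/-!
# Row sol:ME8c: the vectors of norm 48 in the doubled `E_8` lattice are sums of six orthogonal roots
-/

namespace Pool.Agent.SOL

open Pool.Agent.helper54.SOG Finset

open scoped BigOperators

/-- decidable form of being a root of `E_8` -/
def ME8c_chk (a : Vec 8) : Prop :=
  (∀ i j, a i % 2 = a j % 2) ∧ (∑ i, a i) % 4 = 0 ∧ dp a a = 8

instance ME8c_dec (a : Vec 8) : Decidable (ME8c_chk a) := by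
  unfold ME8c_chk dp; infer_instance

instance ME8c_decdp (a b : Vec 8) : Decidable (dp a b = 0) := by
  unfold dp; infer_instance

theorem ME8c_list (hCLQ : CLQ_stmt) (L : List (Vec 8)) (y : Vec 8) (h1 : ∀ a ∈ L, ME8c_chk a)
    (h2 : L.Pairwise (fun a b => dp a b = 0)) (h3 : L.sum = y) : y ∈ VE R8 L.length := by
  rw [← h3]
  refine hCLQ R8 L (fun a ha => ?_) h2
  obtain ⟨e1, e2, e3⟩ := h1 a ha
  exact ⟨⟨⟨e1, e2⟩, by rw [e3]; norm_num⟩, e3⟩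

theorem ME8c_cast (hCTE : CTE_stmt) {x y : Vec 8} (hx : ∀ i, |x i| ≤ 8) (hy : ∀ i, |y i| ≤ 8)
    (h0 : cN 8 x 0 = cN 8 y 0) (h1 : cN 8 x 1 = cN 8 y 1) (h2 : cN 8 x 2 = cN 8 y 2)
    (h3 : cN 8 x 3 = cN 8 y 3) (h4 : cN 8 x 4 = cN 8 y 4) (h5 : cN 8 x 5 = cN 8 y 5)
    (h6 : cN 8 x 6 = cN 8 y 6) (h7 : cN 8 x 7 = cN 8 y 7) (h8 : cN 8 x 8 = cN 8 y 8) :
    ∀ v : ℤ, cN 8 x v = cN 8 y v := by
  intro v
  by_cases hv : v < 0 ∨ 8 < v
  · rw [(hCTE 8 x le_rfl hx).2.2.1 v hv, (hCTE 8 y le_rfl hy).2.2.1 v hv]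
  · push Not at hv
    obtain ⟨hv1, hv2⟩ := hv
    interval_cases v <;> assumption

theorem ME8c_par {x : Vec 8} {r v : ℤ} (hx : ∀ i, x i % 2 = r) (hv : v % 2 ≠ r) (hr : r = 0 ∨ r = 1) :
    cN 8 x v = 0 := by
  unfold cN
  rw [Finset.card_eq_zero, Finset.filter_eq_empty_iff]
  rintro i _ ⟨_, h⟩
  have h1 := hx i
  rcases abs_choice (x i) with h2 | h2 <;> omega

theorem ME8c_big {x : Vec 8} {v b : ℤ} (hx : ∀ i, |x i| ≤ b) (hv : b < v) : cN 8 x v = 0 := by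
  unfold cN
  rw [Finset.card_eq_zero, Finset.filter_eq_empty_iff]
  rintro i _ ⟨_, h⟩
  have h1 := hx i
  omega

/-- the numbers of `x ∈ XE8 k` -/
theorem ME8c_num (hCTE : CTE_stmt) {x : Vec 8} {k : ℕ} (hk : k ≤ 6) (hx : x ∈ XE8 k) :
    (∀ i, |x i| ≤ 6) ∧
    cN 8 x 0 + cN 8 x 1 + cN 8 x 2 + cN 8 x 3 + cN 8 x 4 + cN 8 x 5 + cN 8 x 6 = 8 ∧
    cN 8 x 1 + 4 * cN 8 x 2 + 9 * cN 8 x 3 + 16 * cN 8 x 4 + 25 * cN 8 x 5 + 36 * cN 8 x 6 =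
      8 * k ∧ cN 8 x 7 = 0 ∧ cN 8 x 8 = 0 := by
  obtain ⟨_, hn⟩ := hx
  have h6 : ∀ i, |x i| ≤ 6 := by
    intro i
    by_contra hcon
    push Not at hcon
    have h1 : x i * x i ≤ dp x x := by
      unfold dp
      exact Finset.single_le_sum (f := fun i => x i * x i) (fun j _ => mul_self_nonneg (x j))
        (Finset.mem_univ i)
    have h2 : 49 ≤ x i * x i := by
      rw [← abs_mul_abs_self]
      nlinarith
    have h3 : (k : ℤ) ≤ 6 := by exact_mod_cast hk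
    linarith
  have h7 : cN 8 x 7 = 0 := ME8c_big h6 (by norm_num)
  have h8 : cN 8 x 8 = 0 := ME8c_big h6 (by norm_num)
  obtain ⟨c1, c2, _, c4⟩ := hCTE 8 x le_rfl (fun i => (h6 i).trans (by norm_num))
  have hz : ∑ i ∈ univ.filter (fun i : Fin 8 => ¬ i.val < 8), x i * x i = 0 := by
    rw [Finset.sum_eq_zero]
    intro i hi
    rw [Finset.mem_filter] at hi
    exact absurd i.2 hi.2
  rw [hz, add_zero, c2, hn] at c4
  refine ⟨h6, ?_, ?_, h7, h8⟩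
  · simp only [Finset.sum_range_succ, Finset.sum_range_zero, zero_add] at c1
    push_cast at c1
    rw [h7, h8] at c1
    exact_mod_cast c1
  · simp only [Finset.sum_range_succ, Finset.sum_range_zero, zero_add] at c4
    push_cast at c4
    rw [h7, h8] at c4
    push_cast at c4
    zify
    linarith

theorem ME8c_odd (hREP : REP_stmt) (hCTE : CTE_stmt) (hPRD : PRD_stmt) {k : ℕ} {x y : Vec 8}
    (hx : x ∈ EL) (hy : y ∈ EL) (hx8 : ∀ i, |x i| ≤ 8) (hy8 : ∀ i, |y i| ≤ 8) (hodd : x 0 % 2 = 1)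
    (h0 : cN 8 x 0 = cN 8 y 0) (h1 : cN 8 x 1 = cN 8 y 1) (h2 : cN 8 x 2 = cN 8 y 2)
    (h3 : cN 8 x 3 = cN 8 y 3) (h4 : cN 8 x 4 = cN 8 y 4) (h5 : cN 8 x 5 = cN 8 y 5)
    (h6 : cN 8 x 6 = cN 8 y 6) (h7 : cN 8 x 7 = cN 8 y 7) (h8 : cN 8 x 8 = cN 8 y 8)
    (hv : y ∈ VE R8 k) : x ∈ VE R8 k := by
  have hc := ME8c_cast hCTE hx8 hy8 h0 h1 h2 h3 h4 h5 h6 h7 h8
  exact (hREP k x y).1 hc
    (hPRD.1 8 x y (Or.inl rfl) hx hy hodd (fun i hi => absurd i.2 (not_lt.2 hi)) hc) hv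

theorem ME8c_even (hREP : REP_stmt) (hCTE : CTE_stmt) (hPRD : PRD_stmt) {k : ℕ} {x y : Vec 8}
    (hx8 : ∀ i, |x i| ≤ 8) (hy8 : ∀ i, |y i| ≤ 8) (hpos : 0 < cN 8 x 0)
    (h0 : cN 8 x 0 = cN 8 y 0) (h1 : cN 8 x 1 = cN 8 y 1) (h2 : cN 8 x 2 = cN 8 y 2)
    (h3 : cN 8 x 3 = cN 8 y 3) (h4 : cN 8 x 4 = cN 8 y 4) (h5 : cN 8 x 5 = cN 8 y 5)
    (h6 : cN 8 x 6 = cN 8 y 6) (h7 : cN 8 x 7 = cN 8 y 7) (h8 : cN 8 x 8 = cN 8 y 8)
    (hv : y ∈ VE R8 k) : x ∈ VE R8 k := by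
  have hc := ME8c_cast hCTE hx8 hy8 h0 h1 h2 h3 h4 h5 h6 h7 h8
  have hp := hPRD.2.1 8 x y hc hpos
  exact (hREP k x y).1 hc (hp.1.trans hp.2.symm) hv

/-- ME8c. -/
theorem ME8c (hREP : REP_stmt) (hCTE : CTE_stmt) (hPRD : PRD_stmt) (hCLQ : CLQ_stmt) :
    ME8c_stmt := by
  intro x hx
  obtain ⟨b6, s1, s2, z7, z8⟩ := ME8c_num hCTE le_rfl hx
  have b8 : ∀ i, |x i| ≤ 8 := fun i => (b6 i).trans (by norm_num)
  obtain ⟨hEL, hn⟩ := hx
  have hpar : ∀ i, x i % 2 = x 0 % 2 := fun i => hEL.1 i 0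
  rcases Int.emod_two_eq_zero_or_one (x 0) with h | h
  · rw [h] at hpar
    have z1 : cN 8 x 1 = 0 := ME8c_par hpar (by norm_num) (Or.inl rfl)
    have z3 : cN 8 x 3 = 0 := ME8c_par hpar (by norm_num) (Or.inl rfl)
    have z5 : cN 8 x 5 = 0 := ME8c_par hpar (by norm_num) (Or.inl rfl)
    rw [z1, z3, z5] at s1 s2
    have hcase : (cN 8 x 0 = 2 ∧ cN 8 x 2 = 4 ∧ cN 8 x 4 = 2 ∧ cN 8 x 6 = 0) ∨
        (cN 8 x 0 = 4 ∧ cN 8 x 2 = 3 ∧ cN 8 x 4 = 0 ∧ cN 8 x 6 = 1) ∨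
        (cN 8 x 0 = 5 ∧ cN 8 x 2 = 0 ∧ cN 8 x 4 = 3 ∧ cN 8 x 6 = 0) := by
      have q1 : cN 8 x 6 = 0 ∨ cN 8 x 6 = 1 := by omega
      have q2 : cN 8 x 4 = 0 ∨ cN 8 x 4 = 1 ∨ cN 8 x 4 = 2 ∨ cN 8 x 4 = 3 := by omega
      rcases q1 with q1 | q1 <;> rcases q2 with q2 | q2 | q2 | q2 <;> omega
    rcases hcase with ⟨e0, e2, e4, e6⟩ | ⟨e0, e2, e4, e6⟩ | ⟨e0, e2, e4, e6⟩
    · refine ME8c_even hREP hCTE hPRD (y := ![4, 4, 2, 2, 2, 2, 0, 0]) b8 (by decide) (by omega)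
        (e0.trans (by decide)) (z1.trans (by decide)) (e2.trans (by decide)) (z3.trans (by decide))
        (e4.trans (by decide)) (z5.trans (by decide)) (e6.trans (by decide))
        (z7.trans (by decide)) (z8.trans (by decide)) ?_
      exact ME8c_list hCLQ [![2, 0, 0, 0, 0, 0, 2, 0], ![2, 0, 0, 0, 0, 0, -2, 0],
        ![0, 2, 0, 0, 0, 0, 0, 2], ![0, 2, 0, 0, 0, 0, 0, -2], ![0, 0, 2, 2, 0, 0, 0, 0],
        ![0, 0, 0, 0, 2, 2, 0, 0]] _ (by decide) (by decide) (by decide)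
    · refine ME8c_even hREP hCTE hPRD (y := ![6, 2, 2, 2, 0, 0, 0, 0]) b8 (by decide) (by omega)
        (e0.trans (by decide)) (z1.trans (by decide)) (e2.trans (by decide)) (z3.trans (by decide))
        (e4.trans (by decide)) (z5.trans (by decide)) (e6.trans (by decide))
        (z7.trans (by decide)) (z8.trans (by decide)) ?_
      exact ME8c_list hCLQ [![2, -2, 0, 0, 0, 0, 0, 0], ![0, 0, 2, 2, 0, 0, 0, 0],
        ![1, 1, 1, -1, 1, 1, 1, -1], ![1, 1, 1, -1, -1, -1, -1, 1], ![1, 1, -1, 1, 1, 1, -1, 1],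
        ![1, 1, -1, 1, -1, -1, 1, -1]] _ (by decide) (by decide) (by decide)
    · refine ME8c_even hREP hCTE hPRD (y := ![4, 4, 4, 0, 0, 0, 0, 0]) b8 (by decide) (by omega)
        (e0.trans (by decide)) (z1.trans (by decide)) (e2.trans (by decide)) (z3.trans (by decide))
        (e4.trans (by decide)) (z5.trans (by decide)) (e6.trans (by decide))
        (z7.trans (by decide)) (z8.trans (by decide)) ?_
      exact ME8c_list hCLQ [![2, 0, 0, 2, 0, 0, 0, 0], ![2, 0, 0, -2, 0, 0, 0, 0],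
        ![0, 2, 0, 0, 2, 0, 0, 0], ![0, 2, 0, 0, -2, 0, 0, 0], ![0, 0, 2, 0, 0, 2, 0, 0],
        ![0, 0, 2, 0, 0, -2, 0, 0]] _ (by decide) (by decide) (by decide)
  · have hpar' := hpar
    rw [h] at hpar'
    have z0 : cN 8 x 0 = 0 := ME8c_par hpar' (by norm_num) (Or.inr rfl)
    have z2 : cN 8 x 2 = 0 := ME8c_par hpar' (by norm_num) (Or.inr rfl)
    have z4 : cN 8 x 4 = 0 := ME8c_par hpar' (by norm_num) (Or.inr rfl)
    have z6 : cN 8 x 6 = 0 := ME8c_par hpar' (by norm_num) (Or.inr rfl)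
    rw [z0, z2, z4, z6] at s1
    rw [z2, z4, z6] at s2
    have hcase : (cN 8 x 1 = 3 ∧ cN 8 x 3 = 5 ∧ cN 8 x 5 = 0) ∨
        (cN 8 x 1 = 5 ∧ cN 8 x 3 = 2 ∧ cN 8 x 5 = 1) := by omega
    rcases hcase with ⟨e1, e3, e5⟩ | ⟨e1, e3, e5⟩
    · refine ME8c_odd hREP hCTE hPRD (y := ![3, 3, 3, 3, 3, 1, 1, -1]) hEL
        ⟨by decide, by decide⟩ b8 (by decide) h
        (z0.trans (by decide)) (e1.trans (by decide)) (z2.trans (by decide)) (e3.trans (by decide))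
        (z4.trans (by decide)) (e5.trans (by decide)) (z6.trans (by decide))
        (z7.trans (by decide)) (z8.trans (by decide)) ?_
      exact ME8c_list hCLQ [![2, 0, 0, 0, 0, 2, 0, 0], ![0, 2, 0, 0, 0, 0, 2, 0],
        ![0, 0, 2, 0, 0, 0, 0, -2], ![1, 1, -1, 1, 1, -1, -1, -1], ![1, -1, 1, 1, 1, -1, 1, 1],
        ![-1, 1, 1, 1, 1, 1, -1, 1]] _ (by decide) (by decide) (by decide)
    · refine ME8c_odd hREP hCTE hPRD (y := ![5, 3, 3, 1, 1, 1, 1, 1]) hEL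
        ⟨by decide, by decide⟩ b8 (by decide) h
        (z0.trans (by decide)) (e1.trans (by decide)) (z2.trans (by decide)) (e3.trans (by decide))
        (z4.trans (by decide)) (e5.trans (by decide)) (z6.trans (by decide))
        (z7.trans (by decide)) (z8.trans (by decide)) ?_
      exact ME8c_list hCLQ [![2, 0, 0, -2, 0, 0, 0, 0], ![0, 2, 0, 0, 2, 0, 0, 0],
        ![0, 0, 2, 0, 0, 2, 0, 0], ![1, 1, 1, 1, -1, -1, -1, -1], ![1, 1, -1, 1, -1, 1, 1, 1],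
        ![1, -1, 1, 1, 1, -1, 1, 1]] _ (by decide) (by decide) (by decide)

end Pool.Agent.SOL
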